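import Mathlib
import Pool.Agent.H67R4.SR.Limit
import Pool.Agent.H67R4.SR.Weak
import Pool.Agent.H67R3.FSR.Assembly
import Pool.Agent.H67R3.FSR.Point

set_option autoImplicit false

/-!
# Patterson-Sullivan currents of points of Outer space
-/

namespace Pool.Agent.N119.PS

open Pool.Agent.H472R3 Pool.Agent.H67R3.FSR Pool.Agent.H67R4.SR MeasureTheory Topology Filter
open scoped ENNReal NNReal

variable {N : ℕ}

/-- The Borel sigma-algebra of the boundary of the free group. -/
instance : MeasurableSpace (Bd N) := borel (Bd N)

instance : BorelSpace (Bd N) := ⟨rfl⟩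

/-- The critical exponent of the action: the infimum of the `s ≥ 0` for which the Poincare series
`∑ exp (-s d(x, g x))` converges (for all base points `x`). -/
noncomputable def critExp (A : FTree N) : ℝ :=
  sInf {s : ℝ | 0 ≤ s ∧ ∀ x : A.T, Summable fun g : FreeGroup (Fin N) =>
    Real.exp (-s * dist x (g • x))}

/-- The Busemann function of the end `ξ`: the limit of `d(x, z) - d(y, z)` when `z = g y` and the
group element `g` runs along the ray of the Cayley tree from `1` to `ξ`. -/
noncomputable def buse (A : FTree N) (ξ : Bd N) (x y : A.T) : ℝ :=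
  limUnder atTop fun n : ℕ => dist x (ray ξ n • y) - dist y (ray ξ n • y)

/-- The Gromov product `(ξ|ζ)_x` of the two ends, the limit of the Gromov products at `x` of `g x`
and `h x` when `g` and `h` run along the rays of the Cayley tree from `1` to `ξ` and `ζ`. -/
noncomputable def gpBd (A : FTree N) (x : A.T) (q : Bd2 N) : ℝ :=
  limUnder atTop fun n : ℕ => gpT x (ray q.1.1 n • x) (ray q.1.2 n • x)

/-- A Patterson-Sullivan density of the action: an equivariant family of finite nonzero Borel
measures on the boundary, indexed by the points of the tree, which is conformal of dimension the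
critical exponent `h`: the density of `ν y` with respect to `ν x` is `exp (-h β_ξ(y, x))`. -/
structure IsPSDensity (A : FTree N) (ν : A.T → Measure (Bd N)) : Prop where
  finite : ∀ x, IsFiniteMeasure (ν x)
  ne_zero : ∀ x, ν x ≠ 0
  equivariant : ∀ (g : FreeGroup (Fin N)) (x : A.T), (ν x).map (fun ξ => g • ξ) = ν (g • x)
  conformal : ∀ x y : A.T, ν y = (ν x).withDensity fun ξ =>
    ENNReal.ofReal (Real.exp (-critExp A * buse A ξ y x))

/-- The current `μ` is a multiple of a Patterson-Sullivan current
`exp (2 h (ξ|ζ)_x) dν_x(ξ) dν_x(ζ)`. -/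
def IsPSCurrent (A : FTree N) (μ : Current N) : Prop :=
  ∃ ν : A.T → Measure (Bd N), IsPSDensity A ν ∧ ∃ (c : ℝ≥0) (x : A.T),
    μ.meas = c • ((((ν x).prod (ν x)).comap fun q : Bd2 N => q.1).withDensity fun q =>
      ENNReal.ofReal (Real.exp (2 * critExp A * gpBd A x q)))

end Pool.Agent.N119.PS
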