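import Mathlib
import Pool.Agent.N119.PS.Defs

set_option autoImplicit false

/-!
# Statements of the leaves of project PS
-/

namespace Pool.Agent.N119.PS

open Pool.Agent.H472R3 Pool.Agent.H67R3.FSR Pool.Agent.H67R4.SR MeasureTheory Topology Filter
open scoped ENNReal NNReal

variable {N : ℕ}

/-- `C` is a cancellation bound of the action at the base point `x`. -/
def IsBCC (A : FTree N) (x : A.T) (C : ℝ) : Prop :=
  0 ≤ C ∧ ∀ u v : FreeGroup (Fin N), FreeGroup.IsReduced (u.toWord ++ v.toWord) →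
    (lenFn A x).L u + (lenFn A x).L v ≤ (lenFn A x).L (u * v) + 2 * C

/-- The cylinder of `g`: the pairs `(ξ, ζ)` such that the geodesic from `ξ` to `ζ` passes through
`1` and then through `g`. -/
def Cyl (g : FreeGroup (Fin N)) : Set (Bd2 N) := {q | q ∈ U 1 ∧ ray q.1.2 g.norm = g}

/-- The sphere of radius `n`. -/
noncomputable def sph (N n : ℕ) : Finset (FreeGroup (Fin N)) :=
  ((finite_norm_le (N := N) n).toFinset).filter fun g => g.norm = n

theorem mem_sph {n : ℕ} {g : FreeGroup (Fin N)} : g ∈ sph N n ↔ g.norm = n := by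
  unfold sph
  rw [Finset.mem_filter, Set.Finite.mem_toFinset]
  exact ⟨fun h => h.2, fun h => ⟨le_of_eq h, h⟩⟩

/-- The mean displacement. -/
noncomputable def an (A : FTree N) (x : A.T) (μ : Current N) (n : ℕ) : ℝ :=
  ∑ g ∈ sph N n, μ.meas.real (Cyl g) * (lenFn A x).L g

/-- A periodic reduced word which is not a proper power. -/
structure PerWord (N : ℕ) where
  c : ℕ → Lt N
  m : ℕ
  pos : 0 < m
  per : ∀ j, c (j + m) = c j
  red : ∀ j, c (j + 1) ≠ inv' (c j)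
  prim : ∀ i < m, ∀ j < m, (∀ t, c (i + t) = c (j + t)) → i = j

/-- The subword of length `n` at position `i`. -/
def PerWord.wd (p : PerWord N) (i n : ℕ) : List (Lt N) := (List.range n).map fun t => p.c (i + t)

def PerWord.el (p : PerWord N) (i n : ℕ) : FreeGroup (Fin N) := FreeGroup.mk (p.wd i n)

def PerWord.g (p : PerWord N) : FreeGroup (Fin N) := p.el 0 p.m

/-- The element without its last letter. -/
def ini (g : FreeGroup (Fin N)) : FreeGroup (Fin N) := FreeGroup.mk g.toWord.dropLast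

/-- The element without its first letter. -/
def tl (g : FreeGroup (Fin N)) : FreeGroup (Fin N) := FreeGroup.mk g.toWord.tail

/-! ## Leaves -/

/-- Bounded cancellation. -/
def S_BCL : Prop := ∀ (N : ℕ) (A : FTree N), A.InCV → ∀ x : A.T, ∃ C : ℝ, IsBCC A x C

/-- Linear lower bound for displacements. -/
def S_LOW : Prop := ∀ (N : ℕ) (A : FTree N), A.InCV → ∀ x : A.T, ∃ ε c : ℝ, 0 < ε ∧
  ∀ g : FreeGroup (Fin N), ε * g.norm ≤ (lenFn A x).L g + c

/-- The critical exponent is finite. -/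
def S_FIN : Prop := ∀ (N : ℕ) (A : FTree N), A.InCV →
  {s : ℝ | 0 ≤ s ∧ ∀ x : A.T, Summable fun g : FreeGroup (Fin N) =>
    Real.exp (-s * dist x (g • x))}.Nonempty ∧
  ∀ (x : A.T) (s : ℝ), critExp A < s →
    Summable fun g : FreeGroup (Fin N) => Real.exp (-s * (lenFn A x).L g)

/-- The critical exponent is positive. -/
def S_POS : Prop := ∀ (N : ℕ), 2 ≤ N → ∀ A : FTree N, A.InCV → 0 < critExp A

/-- Every circulation is a combination of simple cycles. -/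
def S_FLOW : Prop := ∀ (V E : Type) [Fintype E] [DecidableEq V] (s t : E → V)
  (f : E → ℝ≥0), (∀ v, (∑ e with t e = v, f e) = ∑ e with s e = v, f e) →
  ∃ (k : ℕ) (a : Fin k → ℝ≥0) (m : Fin k → ℕ) (z : Fin k → ℕ → E),
    (∀ i, 0 < m i) ∧ (∀ i j, z i (j + m i) = z i j) ∧
    (∀ i, ∀ j < m i, ∀ l < m i, z i j = z i l → j = l) ∧
    (∀ i j, t (z i j) = s (z i (j + 1))) ∧
    ∀ (e : E) [∀ i : Fin k, Decidable (∃ j < m i, z i j = e)],
      f e = ∑ i, a i * (if ∃ j < m i, z i j = e then 1 else 0)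

/-- Cylinders: they are open and compact, and partition `U 1`. -/
def S_CYL : Prop := ∀ (N : ℕ), (∀ g : FreeGroup (Fin N), IsClopen (Cyl g) ∧ IsCompact (Cyl g)) ∧
  (∀ g : FreeGroup (Fin N), Continuous fun μ : Current N => μ.meas.real (Cyl g)) ∧
  ∀ (μ : Current N) (n : ℕ), ∑ g ∈ sph N n, μ.meas.real (Cyl g) = μ.meas.real (U 1)

/-- Kirchhoff's laws. -/
def S_KIR : Prop := ∀ (N : ℕ) (μ : Current N) (n : ℕ),
  (∀ v : FreeGroup (Fin N), v.norm = n →
    ∑ e ∈ (sph N (n + 1)).filter (fun e => ini e = v), μ.meas (Cyl e) = μ.meas (Cyl v)) ∧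
  (∀ v : FreeGroup (Fin N), v.norm = n →
    ∑ e ∈ (sph N (n + 1)).filter (fun e => tl e = v), μ.meas (Cyl e) = μ.meas (Cyl v)) ∧
  ∀ e : FreeGroup (Fin N), μ.meas (Cyl e⁻¹) = μ.meas (Cyl e)

/-- Simple cycles in the graph of words come from periodic words. -/
def S_CYC : Prop := ∀ (N n : ℕ), 2 ≤ n → ∀ (m : ℕ) (z : ℕ → FreeGroup (Fin N)), 0 < m →
  (∀ j, (z j).norm = n) → (∀ j, z (j + m) = z j) → (∀ j < m, ∀ l < m, z j = z l → j = l) →
  (∀ j, tl (z j) = ini (z (j + 1))) → ∃ p : PerWord N, p.m = m ∧ ∀ j, p.el j n = z j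

/-- Elementary facts about periodic words. -/
def S_PER : Prop := ∀ (N : ℕ) (p : PerWord N),
  (∀ i n, FreeGroup.IsReduced (p.wd i n)) ∧ (∀ i n, (p.el i n).toWord = p.wd i n) ∧
  (∀ i n, (p.el i n).norm = n) ∧ p.g ≠ 1 ∧ (∀ i a b, p.el i (a + b) = p.el i a * p.el (i + a) b) ∧
  (∀ i n, p.el (i + p.m) n = p.el i n) ∧ ∀ i, IsConj (p.el i p.m) p.g

/-- The counting current of a periodic word gives the numbers of occurrences. -/
def S_ETA : Prop := ∀ (N : ℕ) (p : PerWord N) (hg : p.g ≠ 1) (e : FreeGroup (Fin N)),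
  (eta p.g hg).meas (Cyl e) =
    (((Finset.range p.m).filter fun i => p.el i e.norm = e).card +
      ((Finset.range p.m).filter fun i => p.el i e.norm = e⁻¹).card : ℕ)

/-- Translation lengths of periodic words. -/
def S_LEN : Prop := ∀ (N : ℕ) (A : FTree N), A.InCV → ∀ (x : A.T) (p : PerWord N) (n : ℕ),
  n * A.len p.g ≤ ∑ i ∈ Finset.range p.m, (lenFn A x).L (p.el i n) ∧
  ∀ C : ℝ, IsBCC A x C →
    ∑ i ∈ Finset.range p.m, (lenFn A x).L (p.el i n) ≤ n * A.len p.g + 2 * C * p.m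

/-- On cylinders of a given length a current agrees with a combination of counting currents. -/
def S_DEC : Prop := ∀ (N n : ℕ), 2 ≤ N → 2 ≤ n → ∀ μ : Current N,
  ∃ (k : ℕ) (a : ℕ → ℝ≥0) (p : ℕ → PerWord N) (hp : ∀ i, (p i).g ≠ 1),
    ∀ e : FreeGroup (Fin N), e.norm = n →
      (part a (fun i => eta (p i).g (hp i)) k).meas (Cyl e) = μ.meas (Cyl e)

/-- Convergence can be checked on cylinders. -/
def S_APX : Prop := ∀ (N : ℕ) (μ : Current N) (ν : ℕ → Current N),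
  (∀ n, 2 ≤ n → ∀ e : FreeGroup (Fin N), e.norm = n → (ν n).meas (Cyl e) = μ.meas (Cyl e)) →
  Tendsto ν atTop (𝓝 μ)

/-- The intersection form and mean displacements. -/
def S_BND : Prop := ∀ (N : ℕ), 2 ≤ N → ∀ I : FTree N → Current N → ℝ, IsIntersectionForm I →
  ∀ A : FTree N, A.InCV → ∀ (x : A.T) (μ : Current N) (n : ℕ),
    2 * n * I A μ ≤ an A x μ n ∧
    ∀ C : ℝ, IsBCC A x C → an A x μ n ≤ 2 * n * I A μ + 2 * C * μ.meas.real (U 1)

/-- Rays are quasi-geodesics. -/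
def S_RAY : Prop := ∀ (N : ℕ) (A : FTree N), A.InCV → ∀ (x : A.T) (C : ℝ), IsBCC A x C →
  (∀ (ξ : Bd N) (u : FreeGroup (Fin N)), ∃ n0 : ℕ, ∀ n, n0 ≤ n →
    G (lenFn A x) u (ray ξ n) = G (lenFn A x) u (ray ξ n0)) ∧
  (∀ ξ ζ : Bd N, ξ.1 1 ≠ ζ.1 1 → (∀ n, G (lenFn A x) (ray ξ n) (ray ζ n) ≤ C) ∧
    ∃ n0 : ℕ, ∀ n, n0 ≤ n → G (lenFn A x) (ray ξ n) (ray ζ n) =
      G (lenFn A x) (ray ξ n0) (ray ζ n0))

/-- Bounds for Busemann functions and Gromov products. -/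
def S_BUS : Prop := ∀ (N : ℕ) (A : FTree N), A.InCV → ∀ (x : A.T) (C : ℝ), IsBCC A x C →
  (∀ (ζ : Bd N) (w : FreeGroup (Fin N)), w.toWord.getLast? ≠ some (inv' (ζ.1 1)) →
    (lenFn A x).L w - 2 * C ≤ buse A ζ (w⁻¹ • x) x) ∧
  ∀ q : Bd2 N, q ∈ U 1 → gpBd A x q ≤ C

/-- The shadow lemma (upper bound). -/
def S_SHA : Prop := ∀ (N : ℕ) (A : FTree N), A.InCV → ∀ (x : A.T) (C : ℝ), IsBCC A x C →
  ∀ ν : A.T → Measure (Bd N), IsPSDensity A ν → ∀ g : FreeGroup (Fin N),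
    ν x {ζ | ray ζ g.norm = g} ≤
      ENNReal.ofReal (Real.exp (critExp A * (2 * C - (lenFn A x).L g))) * ν x Set.univ

/-- The Gibbs property (upper bound). -/
def S_GIB : Prop := ∀ (N : ℕ) (A : FTree N), A.InCV → ∀ μ : Current N, IsPSCurrent A μ →
  ∃ (x : A.T) (D : ℝ), 0 < D ∧ ∀ g : FreeGroup (Fin N),
    μ.meas.real (Cyl g) ≤ D * Real.exp (-critExp A * (lenFn A x).L g)

/-- The entropy inequality. -/
def S_ENT : Prop := ∀ (ι : Type) (s : Finset ι) (m K L : ι → ℝ) (h h' D P : ℝ), 0 < D → 0 < P →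
  (∀ i ∈ s, 0 ≤ m i) → (∀ i ∈ s, m i ≤ D * Real.exp (-h * K i)) →
  (∑ i ∈ s, Real.exp (-h' * L i)) ≤ P → 0 < ∑ i ∈ s, m i →
  h * (∑ i ∈ s, m i * K i) ≤ h' * (∑ i ∈ s, m i * L i) +
    (∑ i ∈ s, m i) * (Real.log D + Real.log P - Real.log (∑ i ∈ s, m i))

/-- The main inequality. -/
def S_MAIN : Prop := ∀ (N : ℕ), 2 ≤ N → ∀ I : FTree N → Current N → ℝ, IsIntersectionForm I →
  ∀ S T : FTree N, S.InCV → T.InCV → ∀ μ : Current N, IsPSCurrent T μ → I T μ = 1 →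
    critExp T ≤ critExp S * I S μ

end Pool.Agent.N119.PS
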