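import Mathlib
import Pool.Agent.N119.PS.Stm

set_option autoImplicit false

namespace Pool.Agent.N119.PS

open Pool.Agent.H472R3 Pool.Agent.H67R3.FSR Pool.Agent.H67R4.SR MeasureTheory Topology Filter
open scoped ENNReal NNReal

variable {N : ℕ}

theorem isClopen_ray (n : ℕ) (g : FreeGroup (Fin N)) : IsClopen {q : Bd2 N | ray q.1.2 n = g} := by
  have hc : Continuous fun q : Bd2 N => q.1.2 := continuous_snd.comp continuous_subtype_val
  have h1 : IsOpen {ζ : Bd N | ray ζ n = g} := by
    rw [isOpen_iff_mem_nhds]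
    intro ζ hζ
    filter_upwards [ray_locally ζ n] with ξ hξ
    change ray ξ n = g
    rw [hξ]; exact hζ
  have h2 : IsOpen {ζ : Bd N | ray ζ n = g}ᶜ := by
    rw [isOpen_iff_mem_nhds]
    intro ζ hζ
    filter_upwards [ray_locally ζ n] with ξ hξ
    change ¬ ray ξ n = g
    rw [hξ]; exact hζ
  exact ⟨(isOpen_compl_iff.mp h2).preimage hc, h1.preimage hc⟩

theorem clopen_Cyl (g : FreeGroup (Fin N)) : IsClopen (Cyl g : Set (Bd2 N)) :=
  (isClopen_U 1).inter (isClopen_ray g.norm g)

theorem compact_Cyl (g : FreeGroup (Fin N)) : IsCompact (Cyl g : Set (Bd2 N)) :=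
  isCompact_U1.of_isClosed_subset (clopen_Cyl g).1 fun _ hq => hq.1

theorem continuous_Cyl (g : FreeGroup (Fin N)) :
    Continuous fun μ : Current N => μ.meas.real (Cyl g) := by
  classical
  set f : Bd2 N → ℝ := (Cyl g).indicator fun _ => 1 with hf
  have hfc : Continuous f := (clopen_Cyl g).continuous_indicator continuous_const
  have hfs : HasCompactSupport f := by
    apply HasCompactSupport.intro (compact_Cyl g)
    intro q hq
    exact Set.indicator_of_notMem hq _
  have h1 : Continuous fun μ : Current N => ∫ q, f q ∂μ.meas := by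
    have h2 : Continuous fun (μ : Current N) (f : {f : Bd2 N → ℝ // Continuous f ∧
        HasCompactSupport f}) => ∫ q, f.1 q ∂μ.meas := continuous_induced_dom
    exact (continuous_apply (⟨f, hfc, hfs⟩ : {f : Bd2 N → ℝ // Continuous f ∧
      HasCompactSupport f})).comp h2
  refine h1.congr fun μ => ?_
  rw [hf, integral_indicator (clopen_Cyl g).2.measurableSet, setIntegral_const]
  simp

theorem t_cyl : S_CYL := by
  intro N
  refine ⟨fun g => ⟨clopen_Cyl g, compact_Cyl g⟩, continuous_Cyl, fun μ n => ?_⟩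
  have hU : (U 1 : Set (Bd2 N)) = ⋃ g ∈ sph N n, Cyl g := by
    ext q
    simp only [Set.mem_iUnion, exists_prop]
    constructor
    · intro hq
      exact ⟨ray q.1.2 n, mem_sph.mpr (ray_norm _ _), hq, by rw [ray_norm]⟩
    · rintro ⟨g, _, hq⟩
      exact hq.1
  rw [hU, measureReal_biUnion_finset (h := fun g _ => (μ.finite _ (compact_Cyl g)).ne)]
  · intro g hg g' hg' hne
    rw [Function.onFun, Set.disjoint_left]
    intro q h1 h2
    have e1 := mem_sph.mp hg
    have e2 := mem_sph.mp hg'
    have h3 := h1.2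
    have h4 := h2.2
    rw [e1] at h3
    rw [e2] at h4
    exact hne (h3.symm.trans h4)
  · exact fun g _ => (clopen_Cyl g).2.measurableSet

end Pool.Agent.N119.PS
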