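import Mathlib
import Pool.Agent.N119.PS.Stm
import Pool.Agent.H67R3.FSR.Rigid

set_option autoImplicit false

/-!
# Statements of the leaves of project PSC2 (equality case)
-/

namespace Pool.Agent.N119.PS

open Pool.Agent.H472R3 Pool.Agent.H67R3.FSR Pool.Agent.H67R4.SR MeasureTheory Topology Filter
open scoped ENNReal NNReal

variable {N : ℕ}

/-- The total edge length of the quotient graph: the infimum of the one-dimensional Hausdorff
measures of the Borel sets which meet every orbit. -/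
noncomputable def vol (A : FTree N) : ℝ≥0∞ :=
  letI : MeasurableSpace A.T := borel A.T
  haveI : BorelSpace A.T := ⟨rfl⟩
  ⨅ K ∈ {K : Set A.T | MeasurableSet K ∧ ∀ x : A.T, ∃ g : FreeGroup (Fin N), g • x ∈ K},
    Measure.hausdorffMeasure 1 K

/-- The Gromov product of an end and a group element. -/
noncomputable def gpv (A : FTree N) (x : A.T) (ξ : Bd N) (u : FreeGroup (Fin N)) : ℝ :=
  limUnder atTop fun n : ℕ => G (lenFn A x) (ray ξ n) u

/-- Finite memory of displacements. -/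
def S_MEM : Prop := ∀ (N : ℕ) (A : FTree N), A.InCV → ∀ (x : A.T) (C : ℝ), IsBCC A x C →
  ∃ k : ℕ, 1 ≤ k ∧ (∀ v : FreeGroup (Fin N), k ≤ v.norm → 2 * C < (lenFn A x).L v) ∧
    ∀ t v w : FreeGroup (Fin N), k ≤ v.norm →
      FreeGroup.IsReduced (t.toWord ++ v.toWord ++ w.toWord) →
      (lenFn A x).L (t * v * w) + (lenFn A x).L v = (lenFn A x).L (t * v) + (lenFn A x).L (v * w)

/-- Product formula for the masses of cylinders of a Patterson-Sullivan current. -/
def S_FRM : Prop := ∀ (N : ℕ) (A : FTree N), A.InCV → ∀ μ : Current N, IsPSCurrent A μ →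
  ∃ (x : A.T) (k : ℕ) (a b : FreeGroup (Fin N) → ℝ≥0∞), 1 ≤ k ∧
    (∀ u : FreeGroup (Fin N), k ≤ u.norm → μ.meas (Cyl u) =
      ENNReal.ofReal (Real.exp (-critExp A * (lenFn A x).L u)) * a u * b u) ∧
    (∀ u v : FreeGroup (Fin N), k ≤ u.norm → FreeGroup.IsReduced (u.toWord ++ v.toWord) →
      a (u * v) = a u) ∧
    (∀ u v : FreeGroup (Fin N), k ≤ v.norm → FreeGroup.IsReduced (u.toWord ++ v.toWord) →
      b (u * v) = b v) ∧
    ∀ t v w : FreeGroup (Fin N), k ≤ v.norm →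
      FreeGroup.IsReduced (t.toWord ++ v.toWord ++ w.toWord) →
      (lenFn A x).L (t * v * w) + (lenFn A x).L v = (lenFn A x).L (t * v) + (lenFn A x).L (v * w)

/-- Markov property of Patterson-Sullivan currents. -/
def S_MKV : Prop := ∀ (N : ℕ) (A : FTree N), A.InCV → ∀ μ : Current N, IsPSCurrent A μ →
  ∃ k : ℕ, 1 ≤ k ∧ ∀ t v w : FreeGroup (Fin N), k ≤ v.norm →
    FreeGroup.IsReduced (t.toWord ++ v.toWord ++ w.toWord) →
    μ.meas (Cyl (t * v * w)) * μ.meas (Cyl v) = μ.meas (Cyl (t * v)) * μ.meas (Cyl (v * w))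

/-- No Patterson-Sullivan measure is concentrated on the ends starting with a given letter. -/
def S_PSP : Prop := ∀ (N : ℕ), 2 ≤ N → ∀ (A : FTree N) (ν : A.T → Measure (Bd N)),
  IsPSDensity A ν → ∀ (x : A.T) (a : Lt N), 0 < ν x {ξ | ξ.1 1 ≠ a}

/-- Two-sided Gibbs bounds, for every base point. -/
def S_GB2 : Prop := ∀ (N : ℕ), 2 ≤ N → ∀ A : FTree N, A.InCV → ∀ μ : Current N,
  IsPSCurrent A μ → μ.meas (U 1) ≠ 0 → ∀ x : A.T, ∃ D : ℝ, 0 < D ∧ ∀ g : FreeGroup (Fin N),
    μ.meas.real (Cyl g) ≤ D * Real.exp (-critExp A * (lenFn A x).L g) ∧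
    Real.exp (-critExp A * (lenFn A x).L g) ≤ D * μ.meas.real (Cyl g)

/-- Bounded relative entropy of Markov measures forces equality of transition probabilities. -/
def S_KLD : Prop := ∀ (N : ℕ) (m p : FreeGroup (Fin N) → ℝ) (k : ℕ), 1 ≤ k →
  (∀ u, 0 < m u) → (∀ u, 0 < p u) →
  (∀ v : FreeGroup (Fin N),
    ∑ e ∈ (sph N (v.norm + 1)).filter (fun e => ini e = v), m e = m v) →
  (∀ v : FreeGroup (Fin N),
    ∑ e ∈ (sph N (v.norm + 1)).filter (fun e => tl e = v), m e = m v) →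
  (∀ v : FreeGroup (Fin N),
    ∑ e ∈ (sph N (v.norm + 1)).filter (fun e => ini e = v), p e = p v) →
  (∀ t v w : FreeGroup (Fin N), k ≤ v.norm →
    FreeGroup.IsReduced (t.toWord ++ v.toWord ++ w.toWord) →
    m (t * v * w) * m v = m (t * v) * m (v * w)) →
  (∀ t v w : FreeGroup (Fin N), k ≤ v.norm →
    FreeGroup.IsReduced (t.toWord ++ v.toWord ++ w.toWord) →
    p (t * v * w) * p v = p (t * v) * p (v * w)) →
  (∃ B : ℝ, ∀ n : ℕ, ∑ u ∈ sph N n, m u * (Real.log (m u) - Real.log (p u)) ≤ B) →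
  ∃ K : ℝ, ∀ u, |Real.log (m u) - Real.log (p u)| ≤ K

/-- Displacements at bounded distance have the same translation lengths. -/
def S_LEQ : Prop := ∀ (N : ℕ) (A B : FTree N), A.InCV → B.InCV → ∀ (x : A.T) (y : B.T)
  (a b K : ℝ), (∀ u, |a * (lenFn A x).L u - b * (lenFn B y).L u| ≤ K) →
  ∀ g, a * A.len g = b * B.len g

/-- Rescaling a tree. -/
def S_SCL : Prop := ∀ (N : ℕ) (A : FTree N) (c : ℝ), A.InCV → 0 < c →
  ∃ (B : FTree N) (f : A.T ≃ B.T), B.InCV ∧ (∀ g, B.len g = c * A.len g) ∧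
    (∀ x y, dist (f x) (f y) = c * dist x y) ∧ ∀ (g : FreeGroup (Fin N)) x, f (g • x) = g • f x

/-- Behaviour of the volume under equivariant homotheties. -/
def S_VOL : Prop := ∀ (N : ℕ) (A B : FTree N) (c : ℝ) (f : A.T ≃ B.T), 0 < c →
  (∀ x y, dist (f x) (f y) = c * dist x y) →
  (∀ (g : FreeGroup (Fin N)) x, f (g • x) = g • f x) → vol B = ENNReal.ofReal c * vol A

/-- The intersection numbers only depend on the equivariant isometry class. -/
def S_CNV : Prop := ∀ (N : ℕ), 2 ≤ N → ∀ I : FTree N → Current N → ℝ, IsIntersectionForm I →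
  ∀ A B : FTree N, A.InCV → B.InCV → A.Same B → ∀ μ : Current N, I A μ = I B μ

/-- Equality in the main inequality forces proportional length functions. -/
def S_EQL : Prop := ∀ (N : ℕ), 2 ≤ N → ∀ I : FTree N → Current N → ℝ, IsIntersectionForm I →
  ∀ S T : FTree N, S.InCV → T.InCV → ∀ μ μ' : Current N, IsPSCurrent T μ → IsPSCurrent S μ' →
    I T μ = 1 → μ'.meas (U 1) ≠ 0 → critExp T = critExp S * I S μ →
    ∀ g, critExp T * T.len g = critExp S * S.len g

end Pool.Agent.N119.PS
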