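import Pool.Agent.N119.PS.Main2
import Pool.Agent.N119.PS.Cyl
import Pool.Agent.N123.PSC.BCL
import Pool.Agent.N359.PSC.LOW
import Pool.Agent.N921.PSC.FIN
import Pool.Agent.N271.PSC.POS
import Pool.Agent.N974.PSC.FLOW
import Pool.Agent.N137.PSC.KIR
import Pool.Agent.N119.PSL.CYC
import Pool.Agent.N80.PSC.PER
import Pool.Agent.N697.PSC.ETA
import Pool.Agent.N833.PSC.LEN
import Pool.Agent.N119.PSL.DEC
import Pool.Agent.N339.PSC.APX
import Pool.Agent.N841.PSC.BND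
import Pool.Agent.N720.PSC.RAY
import Pool.Agent.N578.PSC.BUS
import Pool.Agent.N578.PSC.ENT
import Pool.Agent.N655.PSC.SHA
import Pool.Agent.N31.PSC.GIB
import Pool.Agent.N119.PSL.MEM
import Pool.Agent.N921.PSC.FRM
import Pool.Agent.N119.PSL.MKV
import Pool.Agent.N665.PSC.PSP
import Pool.Agent.N278.PSC.GB2
import Pool.Agent.N531.PSC.KLD
import Pool.Agent.N674.PSC.LEQ
import Pool.Agent.N619.PSC.VOL
import Pool.Agent.N622.PSC.CNV

set_option autoImplicit false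

namespace Pool.Agent.N119.PS

theorem l_bcl : S_BCL := Pool.Agent.N123.PSC.t
theorem l_cyl : S_CYL := t_cyl
theorem l_low : S_LOW := Pool.Agent.N359.PSC.LOW.t l_bcl
theorem l_fin : S_FIN := Pool.Agent.N921.PSC.FIN.t l_low
theorem l_pos : S_POS := Pool.Agent.N271.PSC.POS.t l_fin
theorem l_kir : S_KIR := Pool.Agent.N137.PSC.t
theorem l_per : S_PER := Pool.Agent.N80.PSC.t
theorem l_eta : S_ETA := Pool.Agent.N697.PSC.ETA.t l_per
theorem l_len : S_LEN := Pool.Agent.N833.PSC.LEN.t l_per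
theorem l_dec : S_DEC := Pool.Agent.N286.PSC.t Pool.Agent.N974.PSC.FLOW.t l_kir
  Pool.Agent.N281.PSC.CYC.t l_per l_eta
theorem l_apx : S_APX := Pool.Agent.N339.PSC.t l_kir
theorem l_bnd : S_BND := Pool.Agent.N841.PSC.BND.t l_dec l_apx l_cyl l_per l_eta l_len
theorem l_ray : S_RAY := Pool.Agent.N720.PSC.t
theorem l_bus : S_BUS := Pool.Agent.N578.PSC.BUS.t l_ray
theorem l_sha : S_SHA := Pool.Agent.N655.PSC.t l_bus
theorem l_gib : S_GIB := Pool.Agent.N31.PSC.GIB.t l_bcl l_bus l_sha l_cyl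
theorem l_main : S_MAIN := main_ineq l_bcl l_fin l_cyl l_bnd l_gib Pool.Agent.N578.PSC.ENT.t
theorem l_mem : S_MEM := Pool.Agent.N953.PSC.MEM.t
theorem l_frm : S_FRM := Pool.Agent.N921.PSC.FRM.t l_bcl l_ray l_mem l_cyl
theorem l_mkv : S_MKV := Pool.Agent.N896.PSC.MKV.t l_frm
theorem l_psp : S_PSP := Pool.Agent.N665.PSC.t
theorem l_gb2 : S_GB2 := Pool.Agent.N278.PSC.GB2.t l_gib l_bcl l_ray l_psp l_cyl
theorem l_kld : S_KLD := Pool.Agent.N531.PSC.KLD.t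
theorem l_leq : S_LEQ := Pool.Agent.N674.PSC.LEQ.t
theorem l_vol : S_VOL := Pool.Agent.N619.PSC.VOL.t
theorem l_cnv : S_CNV := Pool.Agent.N622.PSC.CNV.t l_bcl l_bnd
theorem l_eql : S_EQL := eql l_bcl l_cyl l_kir l_bnd l_mkv l_gb2 l_kld l_leq

end Pool.Agent.N119.PS
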