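import Mathlib
import Pool.Agent.N119.PS.Stm

set_option autoImplicit false

namespace Pool.Agent.N119.PS

open Pool.Agent.H472R3 Pool.Agent.H67R3.FSR Pool.Agent.H67R4.SR MeasureTheory Topology Filter
open scoped ENNReal NNReal

variable {N : ℕ}

theorem critExp_nonneg (A : FTree N) : 0 ≤ critExp A := Real.sInf_nonneg fun _ hs => hs.1

theorem main_ineq (hBCL : S_BCL) (hFIN : S_FIN) (hCYL : S_CYL) (hBND : S_BND) (hGIB : S_GIB)
    (hENT : S_ENT) : S_MAIN := by
  intro N hN I hI S T hS hT μ hμ h1
  obtain ⟨x, D, hD, hgib⟩ := hGIB N T hT μ hμ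
  obtain ⟨y⟩ := S.isRTree.nonempty
  obtain ⟨C, hC⟩ := hBCL N S hS y
  set M := μ.meas.real (U 1) with hM
  have hsum := (hCYL N).2.2 μ
  have hMnn : 0 ≤ M := measureReal_nonneg
  have hTlow : ∀ n : ℕ, 2 * (n : ℝ) ≤ an T x μ n := by
    intro n
    have := (hBND N hN I hI T hT x μ n).1
    rw [h1, mul_one] at this
    exact this
  have hMpos : 0 < M := by
    rcases hMnn.eq_or_lt with h | h
    · exfalso
      have hz : an T x μ 1 = 0 := by
        unfold an
        apply Finset.sum_eq_zero
        intro g hg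
        have h2 := hsum 1
        rw [← hM, ← h] at h2
        rw [(Finset.sum_eq_zero_iff_of_nonneg fun _ _ => measureReal_nonneg).mp h2 g hg, zero_mul]
      have := hTlow 1
      rw [hz] at this
      norm_num at this
    · exact h
  have key : ∀ h' : ℝ, critExp S < h' → critExp T ≤ h' * I S μ := by
    intro h' hh'
    have hh0 : 0 ≤ h' := (critExp_nonneg S).trans hh'.le
    have hs := (hFIN N S hS).2 y h' hh'
    set P := ∑' g : FreeGroup (Fin N), Real.exp (-h' * (lenFn S y).L g) with hP
    have hPpos : 0 < P := hs.tsum_pos (fun _ => (Real.exp_pos _).le) 1 (Real.exp_pos _)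
    set K0 := M * (Real.log D + Real.log P - Real.log M) with hK0
    have hn : ∀ n : ℕ, critExp T * (2 * (n : ℝ)) ≤ h' * (2 * n * I S μ + 2 * C * M) + K0 := by
      intro n
      have e1 := hENT (FreeGroup (Fin N)) (sph N n) (fun g => μ.meas.real (Cyl g))
        (lenFn T x).L (lenFn S y).L (critExp T) h' D P hD hPpos (fun _ _ => measureReal_nonneg)
        (fun g _ => hgib g) (hs.sum_le_tsum _ fun _ _ => (Real.exp_pos _).le)
        (by rw [hsum n]; exact hMpos)
      rw [hsum n, ← hM] at e1
      have e2 := hTlow n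
      have e3 := (hBND N hN I hI S hS y μ n).2 C hC
      have e4 : critExp T * (2 * (n : ℝ)) ≤ critExp T * an T x μ n :=
        mul_le_mul_of_nonneg_left e2 (critExp_nonneg T)
      have e5 : h' * an S y μ n ≤ h' * (2 * n * I S μ + 2 * C * M) :=
        mul_le_mul_of_nonneg_left e3 hh0
      unfold an at e4 e5
      rw [hK0]
      linarith
    by_contra hc
    push Not at hc
    obtain ⟨n, hn2⟩ := exists_nat_gt ((h' * (2 * C * M) + K0) / (2 * (critExp T - h' * I S μ)))
    have hpos : 0 < 2 * (critExp T - h' * I S μ) := by linarith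
    rw [div_lt_iff₀ hpos] at hn2
    have := hn n
    nlinarith
  apply le_of_forall_pos_le_add
  intro ε hε
  have h2 := key (critExp S + ε / (|I S μ| + 1)) (by
    have : 0 < ε / (|I S μ| + 1) := by positivity
    linarith)
  rw [add_mul] at h2
  have h3 : ε / (|I S μ| + 1) * I S μ ≤ ε := by
    rw [div_mul_eq_mul_div, div_le_iff₀ (by positivity)]
    have := le_abs_self (I S μ)
    nlinarith
  linarith

theorem final (hMAIN : S_MAIN) (hPOS : S_POS) (hN : 2 ≤ N) (I : FTree N → Current N → ℝ)
    (hI : IsIntersectionForm I) (S T : FTree N) (hS : S.InCV) (hT : T.InCV) (μS μT : Current N)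
    (h1 : IsPSCurrent S μS) (h2 : IsPSCurrent T μT) (h3 : I S μS = 1) (h4 : I T μT = 1) :
    1 ≤ I S μT * I T μS := by
  have a1 := hMAIN N hN I hI S T hS hT μT h2 h4
  have a2 := hMAIN N hN I hI T S hT hS μS h1 h3
  have p1 := hPOS N hN S hS
  have p2 := hPOS N hN T hT
  have b1 : critExp T / critExp S ≤ I S μT := by
    rw [div_le_iff₀ p1]; linarith
  have b2 : critExp S / critExp T ≤ I T μS := by
    rw [div_le_iff₀ p2]; linarith
  calc (1 : ℝ) = (critExp T / critExp S) * (critExp S / critExp T) := by field_simp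
    _ ≤ I S μT * I T μS := mul_le_mul b1 b2 (by positivity) ((by positivity : (0 : ℝ) ≤ _).trans b1)

end Pool.Agent.N119.PS
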