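import Mathlib
import Pool.Agent.N119.PS.Main
import Pool.Agent.N119.PS.Stm2

set_option autoImplicit false

namespace Pool.Agent.N119.PS

open Pool.Agent.H472R3 Pool.Agent.H67R3.FSR Pool.Agent.H67R4.SR MeasureTheory Topology Filter
open scoped ENNReal NNReal

variable {N : ℕ}

theorem cyl_fin (hCYL : S_CYL) (μ : Current N) (g : FreeGroup (Fin N)) : μ.meas (Cyl g) ≠ ∞ :=
  (μ.finite _ ((hCYL N).1 g).2).ne

theorem kir_real (hCYL : S_CYL) (hKIR : S_KIR) (μ : Current N) (v : FreeGroup (Fin N)) :
    (∑ e ∈ (sph N (v.norm + 1)).filter (fun e => ini e = v), μ.meas.real (Cyl e) =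
      μ.meas.real (Cyl v)) ∧
    (∑ e ∈ (sph N (v.norm + 1)).filter (fun e => tl e = v), μ.meas.real (Cyl e) =
      μ.meas.real (Cyl v)) := by
  obtain ⟨k1, k2, _⟩ := hKIR N μ v.norm
  constructor
  · rw [measureReal_def, ← k1 v rfl, ENNReal.toReal_sum fun e _ => cyl_fin hCYL μ e]
    rfl
  · rw [measureReal_def, ← k2 v rfl, ENNReal.toReal_sum fun e _ => cyl_fin hCYL μ e]
    rfl

theorem eql (hBCL : S_BCL) (hCYL : S_CYL) (hKIR : S_KIR) (hBND : S_BND) (hMKV : S_MKV)
    (hGB2 : S_GB2) (hKLD : S_KLD) (hLEQ : S_LEQ) : S_EQL := by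
  intro N hN I hI S T hS hT μ μ' hμ hμ' h1 hne' heq
  obtain ⟨x⟩ := T.isRTree.nonempty
  obtain ⟨y⟩ := S.isRTree.nonempty
  obtain ⟨C, hC⟩ := hBCL N S hS y
  have hsum := (hCYL N).2.2 μ
  have hTlow : ∀ n : ℕ, 2 * (n : ℝ) ≤ an T x μ n := by
    intro n
    have := (hBND N hN I hI T hT x μ n).1
    rw [h1, mul_one] at this
    exact this
  have hne : μ.meas (U 1) ≠ 0 := by
    intro h0
    have hz : an T x μ 1 = 0 := by
      unfold an
      apply Finset.sum_eq_zero
      intro g _
      have : μ.meas (Cyl g) = 0 := measure_mono_null (fun q hq => hq.1) h0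
      rw [measureReal_def, this, ENNReal.toReal_zero, zero_mul]
    have := hTlow 1
    rw [hz] at this
    norm_num at this
  obtain ⟨D, hD, hg⟩ := hGB2 N hN T hT μ hμ hne x
  obtain ⟨D', hD', hg'⟩ := hGB2 N hN S hS μ' hμ' hne' y
  obtain ⟨k, hk, hm⟩ := hMKV N T hT μ hμ
  obtain ⟨k', hk', hm'⟩ := hMKV N S hS μ' hμ'
  have pos : ∀ u, 0 < μ.meas.real (Cyl u) := by
    intro u
    have := lt_of_lt_of_le (Real.exp_pos _) (hg u).2
    exact (pos_iff_pos_of_mul_pos this).mp hD
  have pos' : ∀ u, 0 < μ'.meas.real (Cyl u) := by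
    intro u
    have := lt_of_lt_of_le (Real.exp_pos _) (hg' u).2
    exact (pos_iff_pos_of_mul_pos this).mp hD'
  have up : ∀ u, Real.log (μ.meas.real (Cyl u)) ≤ Real.log D - critExp T * (lenFn T x).L u := by
    intro u
    have := Real.log_le_log (pos u) (hg u).1
    rw [Real.log_mul hD.ne' (Real.exp_pos _).ne', Real.log_exp] at this
    linarith
  have lo : ∀ u, -critExp T * (lenFn T x).L u - Real.log D ≤ Real.log (μ.meas.real (Cyl u)) := by
    intro u
    have := Real.log_le_log (Real.exp_pos _) (hg u).2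
    rw [Real.log_mul hD.ne' (pos u).ne', Real.log_exp] at this
    linarith
  have up' : ∀ u, Real.log (μ'.meas.real (Cyl u)) ≤
      Real.log D' - critExp S * (lenFn S y).L u := by
    intro u
    have := Real.log_le_log (pos' u) (hg' u).1
    rw [Real.log_mul hD'.ne' (Real.exp_pos _).ne', Real.log_exp] at this
    linarith
  have lo' : ∀ u, -critExp S * (lenFn S y).L u - Real.log D' ≤
      Real.log (μ'.meas.real (Cyl u)) := by
    intro u
    have := Real.log_le_log (Real.exp_pos _) (hg' u).2
    rw [Real.log_mul hD'.ne' (pos' u).ne', Real.log_exp] at this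
    linarith
  set M := μ.meas.real (U 1) with hM
  have mk : ∀ t v w : FreeGroup (Fin N), max k k' ≤ v.norm →
      FreeGroup.IsReduced (t.toWord ++ v.toWord ++ w.toWord) →
      μ.meas.real (Cyl (t * v * w)) * μ.meas.real (Cyl v) =
        μ.meas.real (Cyl (t * v)) * μ.meas.real (Cyl (v * w)) := by
    intro t v w hv hr
    have := hm t v w ((le_max_left _ _).trans hv) hr
    simp only [measureReal_def]
    rw [← ENNReal.toReal_mul, ← ENNReal.toReal_mul, this]
  have mk' : ∀ t v w : FreeGroup (Fin N), max k k' ≤ v.norm →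
      FreeGroup.IsReduced (t.toWord ++ v.toWord ++ w.toWord) →
      μ'.meas.real (Cyl (t * v * w)) * μ'.meas.real (Cyl v) =
        μ'.meas.real (Cyl (t * v)) * μ'.meas.real (Cyl (v * w)) := by
    intro t v w hv hr
    have := hm' t v w ((le_max_right _ _).trans hv) hr
    simp only [measureReal_def]
    rw [← ENNReal.toReal_mul, ← ENNReal.toReal_mul, this]
  obtain ⟨K, hK⟩ := hKLD N (fun u => μ.meas.real (Cyl u)) (fun u => μ'.meas.real (Cyl u))
    (max k k') (hk.trans (le_max_left _ _)) pos pos'
    (fun v => (kir_real hCYL hKIR μ v).1) (fun v => (kir_real hCYL hKIR μ v).2)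
    (fun v => (kir_real hCYL hKIR μ' v).1) mk mk'
    ⟨M * (Real.log D + Real.log D') + critExp S * (2 * C * M), by
      intro n
      have e2 := hTlow n
      have e3 := (hBND N hN I hI S hS y μ n).2 C hC
      have e4 : critExp T * (2 * (n : ℝ)) ≤ critExp T * an T x μ n :=
        mul_le_mul_of_nonneg_left e2 (critExp_nonneg T)
      have e5 : critExp S * an S y μ n ≤ critExp S * (2 * n * I S μ + 2 * C * M) :=
        mul_le_mul_of_nonneg_left e3 (critExp_nonneg S)
      have e6 : ∑ u ∈ sph N n, μ.meas.real (Cyl u) * (Real.log (μ.meas.real (Cyl u)) -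
          Real.log (μ'.meas.real (Cyl u))) ≤
          ∑ u ∈ sph N n, (μ.meas.real (Cyl u) * (Real.log D + Real.log D') -
            critExp T * (μ.meas.real (Cyl u) * (lenFn T x).L u) +
            critExp S * (μ.meas.real (Cyl u) * (lenFn S y).L u)) := by
        apply Finset.sum_le_sum
        intro u _
        have a1 := up u
        have a2 := lo' u
        have a3 : Real.log (μ.meas.real (Cyl u)) - Real.log (μ'.meas.real (Cyl u)) ≤
            (Real.log D + Real.log D') - critExp T * (lenFn T x).L u +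
              critExp S * (lenFn S y).L u := by linarith
        calc _ ≤ μ.meas.real (Cyl u) * ((Real.log D + Real.log D') -
              critExp T * (lenFn T x).L u + critExp S * (lenFn S y).L u) :=
              mul_le_mul_of_nonneg_left a3 (pos u).le
          _ = _ := by ring
      refine e6.trans ?_
      rw [Finset.sum_add_distrib, Finset.sum_sub_distrib, ← Finset.sum_mul, ← Finset.mul_sum,
        ← Finset.mul_sum, hsum n]
      unfold an at e4 e5
      have e7 : critExp S * (2 * n * I S μ + 2 * C * M) =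
          critExp T * (2 * n) + critExp S * (2 * C * M) := by
        rw [heq]; ring
      linarith⟩
  refine hLEQ N T S hT hS x y (critExp T) (critExp S) (K + Real.log D + Real.log D') ?_
  intro u
  have b1 := abs_le.mp (hK u)
  have c1 := up u
  have c2 := lo u
  have c3 := up' u
  have c4 := lo' u
  rw [abs_le]
  constructor <;> linarith [b1.1, b1.2]

theorem same_of_hom {A B : FTree N} (hN : 2 ≤ N) (hSCL : S_SCL) (hVOL : S_VOL) (hA : A.InCV)
    (hB : B.InCV) (vA : vol A = 1) (vB : vol B = 1) {a b : ℝ} (ha : 0 < a) (hb : 0 < b)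
    (h : ∀ g, a * A.len g = b * B.len g) : A.Same B := by
  obtain ⟨A', f, hA', hlen, hd, he⟩ := hSCL N A (a / b) hA (div_pos ha hb)
  have hl : A'.len = B.len := by
    funext g
    rw [hlen g, div_mul_eq_mul_div, h g, mul_div_cancel_left₀ _ hb.ne']
  obtain ⟨φ, hφ⟩ := same_of_len hN hA' hB hl
  have hd2 : ∀ x y, dist ((f.trans φ.toEquiv) x) ((f.trans φ.toEquiv) y) =
      a / b * dist x y := by
    intro x y
    change dist (φ (f x)) (φ (f y)) = _
    rw [φ.dist_eq, hd]
  have he2 : ∀ (g : FreeGroup (Fin N)) x, (f.trans φ.toEquiv) (g • x) =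
      g • (f.trans φ.toEquiv) x := by
    intro g x
    change φ (f (g • x)) = g • φ (f x)
    rw [he, hφ]
  have hv := hVOL N A B (a / b) (f.trans φ.toEquiv) (div_pos ha hb) hd2 he2
  rw [vA, vB, mul_one] at hv
  have hone : a / b = 1 := by
    have := congrArg ENNReal.toReal hv
    rw [ENNReal.toReal_one, ENNReal.toReal_ofReal (div_pos ha hb).le] at this
    exact this.symm
  refine ⟨⟨f.trans φ.toEquiv, ?_⟩, he2⟩
  apply Isometry.of_dist_eq
  intro x y
  have := hd2 x y
  rw [hone, one_mul] at this
  exact this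

theorem final2 (hMAIN : S_MAIN) (hPOS : S_POS) (hBND : S_BND)
    (hEQL : S_EQL) (hSCL : S_SCL) (hVOL : S_VOL) (hCNV : S_CNV) (hN : 2 ≤ N)
    (I : FTree N → Current N → ℝ) (hI : IsIntersectionForm I) (S T : FTree N) (hS : S.InCV)
    (hT : T.InCV) (vS : vol S = 1) (vT : vol T = 1) (μS μT : Current N) (h1 : IsPSCurrent S μS)
    (h2 : IsPSCurrent T μT) (h3 : I S μS = 1) (h4 : I T μT = 1) :
    I S μT * I T μS = 1 ↔ S.Same T := by
  constructor
  · intro h
    have a1 := hMAIN N hN I hI S T hS hT μT h2 h4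
    have a2 := hMAIN N hN I hI T S hT hS μS h1 h3
    have p1 := hPOS N hN S hS
    have p2 := hPOS N hN T hT
    have ha : 0 < I S μT := by
      by_contra hc
      push Not at hc
      nlinarith
    have hb : 0 < I T μS := by
      by_contra hc
      push Not at hc
      nlinarith
    have heq : critExp T = critExp S * I S μT := by
      apply le_antisymm a1
      calc critExp S * I S μT ≤ (critExp T * I T μS) * I S μT :=
            mul_le_mul_of_nonneg_right a2 ha.le
        _ = critExp T * (I S μT * I T μS) := by ring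
        _ = critExp T := by rw [h, mul_one]
    have hne : μS.meas (U 1) ≠ 0 := by
      intro h0
      obtain ⟨y⟩ := S.isRTree.nonempty
      have hz : an S y μS 1 = 0 := by
        unfold an
        apply Finset.sum_eq_zero
        intro g _
        have : μS.meas (Cyl g) = 0 := measure_mono_null (fun q hq => hq.1) h0
        rw [measureReal_def, this, ENNReal.toReal_zero, zero_mul]
      have := (hBND N hN I hI S hS y μS 1).1
      rw [hz, h3] at this
      norm_num at this
    have hl := hEQL N hN I hI S T hS hT μT μS h2 h1 h4 hne heq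
    exact same_of_hom hN hSCL hVOL hS hT vS vT p1 p2 fun g => (hl g).symm
  · intro h
    have e1 := hCNV N hN I hI S T hS hT h μT
    have e2 := hCNV N hN I hI S T hS hT h μS
    rw [e1, h4, ← e2, h3, mul_one]

end Pool.Agent.N119.PS
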