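import Mathlib
import Pool.Agent.N119.PS.Main2

set_option autoImplicit false

namespace Pool.Agent.N119.PS

open Pool.Agent.H472R3 Pool.Agent.H67R3.FSR Pool.Agent.H67R4.SR MeasureTheory Topology Filter
open scoped ENNReal NNReal

variable {N : ℕ}

/-- `A` and `B` differ by a scaling of the metric: there is an equivariant bijection which multiplies
all distances by the same positive constant. -/
def Homothetic (A B : FTree N) : Prop :=
  ∃ (c : ℝ) (f : A.T ≃ B.T), 0 < c ∧ (∀ x y, dist (f x) (f y) = c * dist x y) ∧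
    ∀ (g : FreeGroup (Fin N)) x, f (g • x) = g • f x

theorem Homothetic.symm' {A B : FTree N} {c : ℝ} (f : A.T ≃ B.T) (hc : 0 < c)
    (hd : ∀ x y, dist (f x) (f y) = c * dist x y)
    (he : ∀ (g : FreeGroup (Fin N)) x, f (g • x) = g • f x) :
    (∀ x y, dist (f.symm x) (f.symm y) = c⁻¹ * dist x y) ∧
      ∀ (g : FreeGroup (Fin N)) x, f.symm (g • x) = g • f.symm x := by
  constructor
  · intro x y
    have := hd (f.symm x) (f.symm y)
    rw [f.apply_symm_apply, f.apply_symm_apply] at this
    rw [this, ← mul_assoc, inv_mul_cancel₀ hc.ne', one_mul]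
  · intro g x
    apply f.injective
    rw [f.apply_symm_apply, he, f.apply_symm_apply]

theorem half_hom (hBCL : S_BCL) (hBND : S_BND) (hN : 2 ≤ N) {I : FTree N → Current N → ℝ}
    (hI : IsIntersectionForm I) {A B : FTree N} (hA : A.InCV) (hB : B.InCV) {c : ℝ} (hc : 0 < c)
    (f : A.T ≃ B.T) (hd : ∀ x y, dist (f x) (f y) = c * dist x y)
    (he : ∀ (g : FreeGroup (Fin N)) x, f (g • x) = g • f x) (μ : Current N) :
    I B μ ≤ c * I A μ := by
  obtain ⟨x⟩ := A.isRTree.nonempty
  obtain ⟨C, hC⟩ := hBCL N A hA x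
  have han : ∀ n, an B (f x) μ n = c * an A x μ n := by
    intro n
    unfold an
    rw [Finset.mul_sum]
    apply Finset.sum_congr rfl
    intro g _
    rw [lenFn_L, lenFn_L, ← he, hd]
    ring
  have key : ∀ n : ℕ, 2 * (n : ℝ) * (I B μ - c * I A μ) ≤ c * (2 * C * μ.meas.real (U 1)) := by
    intro n
    have h1 := (hBND N hN I hI B hB (f x) μ n).1
    have h2 := (hBND N hN I hI A hA x μ n).2 C hC
    rw [han] at h1
    have h3 := mul_le_mul_of_nonneg_left h2 hc.le
    nlinarith
  by_contra hlt
  push Not at hlt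
  obtain ⟨n, hn⟩ := exists_nat_gt
    (c * (2 * C * μ.meas.real (U 1)) / (2 * (I B μ - c * I A μ)))
  have hpos : 0 < 2 * (I B μ - c * I A μ) := by linarith
  rw [div_lt_iff₀ hpos] at hn
  have := key n
  nlinarith

theorem scale_form (hBCL : S_BCL) (hBND : S_BND) (hN : 2 ≤ N) {I : FTree N → Current N → ℝ}
    (hI : IsIntersectionForm I) {A B : FTree N} (hA : A.InCV) (hB : B.InCV) {c : ℝ} (hc : 0 < c)
    (f : A.T ≃ B.T) (hd : ∀ x y, dist (f x) (f y) = c * dist x y)
    (he : ∀ (g : FreeGroup (Fin N)) x, f (g • x) = g • f x) (μ : Current N) :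
    I B μ = c * I A μ := by
  apply le_antisymm (half_hom hBCL hBND hN hI hA hB hc f hd he μ)
  obtain ⟨h1, h2⟩ := Homothetic.symm' f hc hd he
  have := half_hom hBCL hBND hN hI hB hA (inv_pos.mpr hc) f.symm h1 h2 μ
  calc c * I A μ ≤ c * (c⁻¹ * I B μ) := mul_le_mul_of_nonneg_left this hc.le
    _ = I B μ := by rw [← mul_assoc, mul_inv_cancel₀ hc.ne', one_mul]

theorem hom_of_len {A B : FTree N} (hN : 2 ≤ N) (hSCL : S_SCL) (hA : A.InCV)
    (hB : B.InCV) {a b : ℝ} (ha : 0 < a) (hb : 0 < b)
    (h : ∀ g, a * A.len g = b * B.len g) : Homothetic A B := by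
  obtain ⟨A', f, hA', hlen, hd, he⟩ := hSCL N A (a / b) hA (div_pos ha hb)
  have hl : A'.len = B.len := by
    funext g
    rw [hlen g, div_mul_eq_mul_div, h g, mul_div_cancel_left₀ _ hb.ne']
  obtain ⟨φ, hφ⟩ := same_of_len hN hA' hB hl
  refine ⟨a / b, f.trans φ.toEquiv, div_pos ha hb, ?_, ?_⟩
  · intro x y
    change dist (φ (f x)) (φ (f y)) = _
    rw [φ.dist_eq, hd]
  · intro g x
    change φ (f (g • x)) = g • φ (f x)
    rw [he, hφ]

theorem final_hom (hMAIN : S_MAIN) (hPOS : S_POS) (hBCL : S_BCL) (hBND : S_BND)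
    (hEQL : S_EQL) (hSCL : S_SCL) (hN : 2 ≤ N)
    (I : FTree N → Current N → ℝ) (hI : IsIntersectionForm I) (S T : FTree N) (hS : S.InCV)
    (hT : T.InCV) (μS μT : Current N) (h1 : IsPSCurrent S μS)
    (h2 : IsPSCurrent T μT) (h3 : I S μS = 1) (h4 : I T μT = 1) :
    I S μT * I T μS = 1 ↔ Homothetic S T := by
  constructor
  · intro h
    have a1 := hMAIN N hN I hI S T hS hT μT h2 h4
    have a2 := hMAIN N hN I hI T S hT hS μS h1 h3
    have p1 := hPOS N hN S hS
    have p2 := hPOS N hN T hT
    have ha : 0 < I S μT := by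
      by_contra hc
      push Not at hc
      nlinarith
    have hb : 0 < I T μS := by
      by_contra hc
      push Not at hc
      nlinarith
    have heq : critExp T = critExp S * I S μT := by
      apply le_antisymm a1
      calc critExp S * I S μT ≤ (critExp T * I T μS) * I S μT :=
            mul_le_mul_of_nonneg_right a2 ha.le
        _ = critExp T * (I S μT * I T μS) := by ring
        _ = critExp T := by rw [h, mul_one]
    have hne : μS.meas (U 1) ≠ 0 := by
      intro h0
      obtain ⟨y⟩ := S.isRTree.nonempty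
      have hz : an S y μS 1 = 0 := by
        unfold an
        apply Finset.sum_eq_zero
        intro g _
        have : μS.meas (Cyl g) = 0 := measure_mono_null (fun q hq => hq.1) h0
        rw [measureReal_def, this, ENNReal.toReal_zero, zero_mul]
      have := (hBND N hN I hI S hS y μS 1).1
      rw [hz, h3] at this
      norm_num at this
    have hl := hEQL N hN I hI S T hS hT μT μS h2 h1 h4 hne heq
    exact hom_of_len hN hSCL hS hT p1 p2 fun g => (hl g).symm
  · rintro ⟨c, f, hc, hd, he⟩
    have e1 := scale_form hBCL hBND hN hI hS hT hc f hd he μT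
    have e2 := scale_form hBCL hBND hN hI hS hT hc f hd he μS
    rw [h4] at e1
    rw [h3, mul_one] at e2
    rw [e2, mul_comm, ← e1]

theorem same_of_homothetic {S T : FTree N} (hVOL : S_VOL) (vS : vol S = 1) (vT : vol T = 1)
    (h : Homothetic S T) : S.Same T := by
  obtain ⟨c, f, hc, hd, he⟩ := h
  have hv := hVOL N S T c f hc hd he
  rw [vS, vT, mul_one] at hv
  have hone : c = 1 := by
    have := congrArg ENNReal.toReal hv
    rw [ENNReal.toReal_one, ENNReal.toReal_ofReal hc.le] at this
    exact this.symm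
  refine ⟨⟨f, ?_⟩, he⟩
  apply Isometry.of_dist_eq
  intro x y
  have := hd x y
  rw [hone, one_mul] at this
  exact this

theorem homothetic_of_same {S T : FTree N} (h : S.Same T) : Homothetic S T := by
  obtain ⟨f, hf⟩ := h
  exact ⟨1, f.toEquiv, one_pos, fun x y => by rw [one_mul]; exact f.dist_eq x y, hf⟩

end Pool.Agent.N119.PS
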