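import Mathlib
import Pool.Agent.N119.PS.Stm2

set_option autoImplicit false

/-!
# Statements of the leaves of project PSC3 (existence of Patterson-Sullivan currents)
-/

namespace Pool.Agent.N119.PS

open Pool.Agent.H472R3 Pool.Agent.H67R3.FSR Pool.Agent.H67R4.SR MeasureTheory Topology Filter
open scoped ENNReal NNReal

variable {N : ℕ}

/-- Finite memory `k` of the displacement function at `x`. -/
def Mem (A : FTree N) (x : A.T) (k : ℕ) : Prop := 1 ≤ k ∧ ∀ t v w : FreeGroup (Fin N),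
  k ≤ v.norm → FreeGroup.IsReduced (t.toWord ++ v.toWord ++ w.toWord) →
  (lenFn A x).L (t * v * w) + (lenFn A x).L v = (lenFn A x).L (t * v) + (lenFn A x).L (v * w)

/-- The relative Poincare series of the elements continuing `v`. -/
noncomputable def Zs (A : FTree N) (x : A.T) (s : ℝ) (v : FreeGroup (Fin N)) : ℝ :=
  ∑' w : {w : FreeGroup (Fin N) // FreeGroup.IsReduced (v.toWord ++ w.toWord)},
    Real.exp (-s * ((lenFn A x).L (v * w.1) - (lenFn A x).L v))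

/-- Elementary properties of the relative Poincare series. -/
def S_Z1 : Prop := ∀ (N : ℕ) (A : FTree N), A.InCV → ∀ (x : A.T) (k : ℕ), Mem A x k →
  ∀ s : ℝ, critExp A < s →
    (∀ v, Summable fun w : {w : FreeGroup (Fin N) // FreeGroup.IsReduced (v.toWord ++ w.toWord)} =>
      Real.exp (-s * ((lenFn A x).L (v * w.1) - (lenFn A x).L v))) ∧
    (∀ v, 1 ≤ Zs A x s v) ∧
    (∀ t v : FreeGroup (Fin N), k ≤ v.norm → FreeGroup.IsReduced (t.toWord ++ v.toWord) →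
      Zs A x s (t * v) = Zs A x s v) ∧
    ∀ v, Zs A x s v = 1 + ∑ e ∈ (sph N (v.norm + 1)).filter (fun e => ini e = v),
      Real.exp (-s * ((lenFn A x).L e - (lenFn A x).L v)) * Zs A x s e

/-- Divergence at the critical exponent. -/
def S_Z2 : Prop := ∀ (N : ℕ), 2 ≤ N → ∀ (A : FTree N), A.InCV → ∀ (x : A.T) (k : ℕ), Mem A x k →
  ∀ B ε : ℝ, 0 < ε → ∃ s : ℝ, critExp A < s ∧ s < critExp A + ε ∧
    ∃ v : FreeGroup (Fin N), v.norm = k ∧ B < Zs A x s v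

/-- The eigenfunction. -/
def S_EIG : Prop := ∀ (N : ℕ), 2 ≤ N → ∀ (A : FTree N), A.InCV → ∀ (x : A.T) (k : ℕ), Mem A x k →
  ∃ Φ : FreeGroup (Fin N) → ℝ, (∀ u, 0 ≤ Φ u) ∧ (∃ u, u.norm = k ∧ 0 < Φ u) ∧
    (∀ t v : FreeGroup (Fin N), k ≤ v.norm → FreeGroup.IsReduced (t.toWord ++ v.toWord) →
      Φ (t * v) = Φ v) ∧
    ∀ u, k ≤ u.norm → Φ u = ∑ e ∈ (sph N (u.norm + 1)).filter (fun e => ini e = u),
      Real.exp (-critExp A * ((lenFn A x).L e - (lenFn A x).L u)) * Φ e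

/-- A measure on the boundary with given masses of cylinders. -/
def S_MSR : Prop := ∀ (N k : ℕ) (W : FreeGroup (Fin N) → ℝ), (∀ u, 0 ≤ W u) →
  (∀ u, k ≤ u.norm → W u = ∑ e ∈ (sph N (u.norm + 1)).filter (fun e => ini e = u), W e) →
  ∃ ν : Measure (Bd N), IsFiniteMeasure ν ∧ ∀ u : FreeGroup (Fin N), k ≤ u.norm →
    ν {ξ | ray ξ u.norm = u} = ENNReal.ofReal (W u)

/-- Busemann functions and Gromov products do not depend on the way the ends are approached. -/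
def S_APP : Prop := ∀ (N : ℕ) (A : FTree N), A.InCV →
  (∀ (ξ : Bd N) (p y z : A.T), ∃ n0 : ℕ, ∀ n, n0 ≤ n →
    dist y (ray ξ n • p) - dist z (ray ξ n • p) = buse A ξ y z) ∧
  ∀ (q : Bd2 N) (p p' y : A.T), ∃ n0 : ℕ, ∀ n m, n0 ≤ n → n0 ≤ m →
    gpT y (ray q.1.1 n • p) (ray q.1.2 m • p') = gpBd A y q

/-- Rays and translations. -/
def S_SHF : Prop := ∀ (N : ℕ) (g : FreeGroup (Fin N)) (ξ : Bd N), ∃ a b : ℕ, ∀ n,
  ray (g • ξ) (n + a) = g * ray ξ (n + b)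

/-- Invariance properties. -/
def S_INV : Prop := ∀ (N : ℕ) (A : FTree N), A.InCV →
  (∀ (g : FreeGroup (Fin N)) (ξ : Bd N) (y z : A.T),
    buse A (g • ξ) (g • y) (g • z) = buse A ξ y z) ∧
  (∀ (ξ : Bd N) (y z w : A.T), buse A ξ y w = buse A ξ y z + buse A ξ z w) ∧
  (∀ (g : FreeGroup (Fin N)) (q : Bd2 N) (y : A.T), gpBd A (g • y) (g • q) = gpBd A y q) ∧
  ∀ (q : Bd2 N) (y z : A.T),
    2 * gpBd A y q = 2 * gpBd A z q + buse A q.1.1 y z + buse A q.1.2 y z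

/-- Existence of Patterson-Sullivan densities. -/
def S_DEN : Prop := ∀ (N : ℕ), 2 ≤ N → ∀ A : FTree N, A.InCV →
  ∃ ν : A.T → Measure (Bd N), IsPSDensity A ν

/-- The Patterson-Sullivan current of a density. -/
def S_CUR : Prop := ∀ (N : ℕ), 2 ≤ N → ∀ A : FTree N, A.InCV →
  ∀ ν : A.T → Measure (Bd N), IsPSDensity A ν → ∀ x : A.T, ∃ μ : Current N,
    μ.meas = (((ν x).prod (ν x)).comap fun q : Bd2 N => q.1).withDensity (fun q =>
      ENNReal.ofReal (Real.exp (2 * critExp A * gpBd A x q))) ∧ μ.meas (U 1) ≠ 0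

/-- Normalisation. -/
def S_NRM : Prop := ∀ (N : ℕ), 2 ≤ N → ∀ I : FTree N → Current N → ℝ, IsIntersectionForm I →
  ∀ A : FTree N, A.InCV → ∀ μ : Current N, IsPSCurrent A μ → μ.meas (U 1) ≠ 0 →
    ∃ μ' : Current N, IsPSCurrent A μ' ∧ I A μ' = 1

theorem exists_ps (hDEN : S_DEN) (hCUR : S_CUR) (hNRM : S_NRM) (hN : 2 ≤ N)
    (I : FTree N → Current N → ℝ) (hI : IsIntersectionForm I) (A : FTree N) (hA : A.InCV) :
    ∃ μ : Current N, IsPSCurrent A μ ∧ I A μ = 1 := by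
  obtain ⟨ν, hν⟩ := hDEN N hN A hA
  obtain ⟨x⟩ := A.isRTree.nonempty
  obtain ⟨μ, hμ, hne⟩ := hCUR N hN A hA ν hν x
  exact hNRM N hN I hI A hA μ ⟨ν, hν, 1, x, by rw [hμ, one_smul]⟩ hne

end Pool.Agent.N119.PS
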