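import Mathlib
import Pool.Agent.N119.PS.Stm

set_option autoImplicit false

/-!
# Statements of the leaves of project PSC4 (existence of the intersection form)
-/

namespace Pool.Agent.N119.PS

open Pool.Agent.H472R3 Pool.Agent.H67R3.FSR Pool.Agent.H67R4.SR MeasureTheory Topology Filter
open scoped ENNReal NNReal

variable {N : ℕ}

/-- A base point. -/
noncomputable def bpt (A : FTree N) : A.T := Classical.choice A.isRTree.nonempty

/-- The intersection number as a limit (infimum) of normalised mean displacements. -/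
noncomputable def inter (A : FTree N) (μ : Current N) : ℝ :=
  ⨅ n : ℕ, an A (bpt A) μ (n + 1) / (2 * (n + 1))

/-- Almost additivity of the mean displacement. -/
def S_SUB : Prop := ∀ (N : ℕ) (A : FTree N), A.InCV → ∀ (x : A.T) (μ : Current N) (m n : ℕ),
  an A x μ (m + n) ≤ an A x μ m + an A x μ n ∧
  ∀ C : ℝ, IsBCC A x C →
    an A x μ m + an A x μ n ≤ an A x μ (m + n) + 2 * C * μ.meas.real (U 1)

/-- Counting currents of powers. -/
def S_POW : Prop := ∀ (N : ℕ) (g : FreeGroup (Fin N)) (hg : g ≠ 1),
  ∃ (p : PerWord N) (hp : p.g ≠ 1) (k : ℕ), 1 ≤ k ∧ IsConj g (p.g ^ k) ∧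
    (eta g hg).meas = (k : ℝ≥0) • (eta p.g hp).meas

/-- The intersection form exists. -/
def S_IFM : Prop := ∀ N : ℕ, IsIntersectionForm (inter : FTree N → Current N → ℝ)

end Pool.Agent.N119.PS
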