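import Pool.Agent.N119.PS.Fin1
import Pool.Agent.N119.PS.Hom
import Pool.Agent.N119.PS.Stm3
import Pool.Agent.N119.PS.Stm4

set_option autoImplicit false

namespace Pool.Agent.N119.PS

open Pool.Agent.H472R3 Pool.Agent.H67R3.FSR Pool.Agent.H67R4.SR MeasureTheory Topology Filter
open scoped ENNReal NNReal

/-- First theorem, from the existence statements. -/
theorem thm1 (hDEN : S_DEN) (hCUR : S_CUR) (hNRM : S_NRM) (hIFM : S_IFM) (N : ℕ) (hN : 2 ≤ N) :
    (∃ I : FTree N → Current N → ℝ, IsIntersectionForm I) ∧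
    ∀ I : FTree N → Current N → ℝ, IsIntersectionForm I →
      (∀ T : FTree N, T.InCV → ∃ μ : Current N, IsPSCurrent T μ ∧ I T μ = 1) ∧
      ∀ S T : FTree N, S.InCV → T.InCV → ∀ μS μT : Current N, IsPSCurrent S μS →
        IsPSCurrent T μT → I S μS = 1 → I T μT = 1 →
        0 < critExp S ∧ critExp T / critExp S ≤ I S μT ∧ 1 ≤ I S μT * I T μS := by
  refine ⟨⟨_, hIFM N⟩, fun I hI => ⟨fun T hT => exists_ps hDEN hCUR hNRM hN I hI T hT, ?_⟩⟩
  intro S T hS hT μS μT h1 h2 h3 h4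
  have p := l_pos N hN S hS
  refine ⟨p, ?_, final l_main l_pos hN I hI S T hS hT μS μT h1 h2 h3 h4⟩
  rw [div_le_iff₀ p, mul_comm]
  exact l_main N hN I hI S T hS hT μT h2 h4

/-- Second theorem, from the existence statements. -/
theorem thm2 (hDEN : S_DEN) (hCUR : S_CUR) (hNRM : S_NRM) (hIFM : S_IFM) (hSCL : S_SCL)
    (N : ℕ) (hN : 2 ≤ N) :
    (∃ I : FTree N → Current N → ℝ, IsIntersectionForm I) ∧
    ∀ I : FTree N → Current N → ℝ, IsIntersectionForm I →
      (∀ T : FTree N, T.InCV → ∃ μ : Current N, IsPSCurrent T μ ∧ I T μ = 1) ∧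
      ∀ S T : FTree N, S.InCV → T.InCV → ∀ μS μT : Current N, IsPSCurrent S μS →
        IsPSCurrent T μT → I S μS = 1 → I T μT = 1 →
        (I S μT * I T μS = 1 ↔ Homothetic S T) ∧
        (vol S = 1 → vol T = 1 → (I S μT * I T μS = 1 ↔ S.Same T)) := by
  refine ⟨⟨_, hIFM N⟩, fun I hI => ⟨fun T hT => exists_ps hDEN hCUR hNRM hN I hI T hT, ?_⟩⟩
  intro S T hS hT μS μT h1 h2 h3 h4
  have h := final_hom l_main l_pos l_bcl l_bnd l_eql hSCL hN I hI S T hS hT μS μT h1 h2 h3 h4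
  refine ⟨h, fun vS vT => h.trans ⟨same_of_homothetic l_vol vS vT, homothetic_of_same⟩⟩

end Pool.Agent.N119.PS
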