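import Pool.Agent.N119.PS.Fin2
import Pool.Agent.N119.PSL.Z1
import Pool.Agent.N119.PSL.EIG
import Pool.Agent.N119.PSL.Z2
import Pool.Agent.N454.PSC3.MSR
import Pool.Agent.N717.PSC3.APP
import Pool.Agent.N588.PSC3.SHF
import Pool.Agent.N771.PSC3.INV
import Pool.Agent.N386.PSC3.CUR
import Pool.Agent.N451.PSC3.DEN
import Pool.Agent.N946.PSC3.NRM
import Pool.Agent.N137.PSC4.SUB
import Pool.Agent.N826.PSC4.IFM
import Pool.Agent.N478.PSC.SCL

set_option autoImplicit false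

namespace Pool.Agent.N119.PS

theorem l_z1 : S_Z1 := Pool.Agent.N866.PSC3.Z1.t l_fin
theorem l_scl : S_SCL := Pool.Agent.N478.PSC.t
theorem l_app : S_APP := Pool.Agent.N717.PSC3.t l_bcl l_ray
theorem l_shf : S_SHF := Pool.Agent.N588.PSC3.t
theorem l_inv : S_INV := Pool.Agent.N771.PSC3.t l_app l_shf
theorem l_cur : S_CUR := Pool.Agent.N386.PSC3.CUR.t l_app l_inv l_psp
theorem l_nrm : S_NRM := Pool.Agent.N946.PSC3.NRM.t l_bcl l_low l_cyl l_bnd
theorem l_sub : S_SUB := Pool.Agent.N137.PSC4.t l_kir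
theorem l_ifm (h : S_POW) : S_IFM := Pool.Agent.N826.PSC4.t l_sub h l_bcl l_cyl l_per l_eta l_len
theorem l_z2 : S_Z2 := Pool.Agent.N574.PSC3.Z2.t l_fin l_pos
theorem l_den : S_DEN := Pool.Agent.N451.PSC3.DEN.t l_bcl l_mem
  (Pool.Agent.N271.PSC3.EIG.t l_z1 l_z2) Pool.Agent.N454.PSC3.t l_app l_inv

end Pool.Agent.N119.PS
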