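import Pool.Agent.N119.PS.Fin3
import Pool.Agent.N488.PSC4.POW

set_option autoImplicit false

namespace Pool.Agent.N119.PS

theorem l_pow : S_POW := Pool.Agent.N488.PSC4.POW.t l_per

end Pool.Agent.N119.PS
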